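import Pool.Agent.Helper92.PU.St

/-!
# Project PU (MP_ad0dc2_nt), module CB: labels
-/

set_option autoImplicit false

open Finset

namespace Pool.Agent.Helper64.PU

open Pool.Agent.Helper92.PU Pool.Agent.Helper92.PW

private theorem two_pow_le (n : ℕ) (hn : n ≠ 0) : 2 ^ n.primeFactors.card ≤ n.divisors.card := by
  rw [Nat.card_divisors hn, ← Finset.prod_const]
  apply Finset.prod_le_prod'
  intro p hp
  have h1 := Nat.Prime.factorization_pos_of_dvd (Nat.prime_of_mem_primeFactors hp) hn
    (Nat.dvd_of_mem_primeFactors hp)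
  omega

theorem hCB (hPAR : StPAR) : StCB := by
  classical
  intro a b e c W hc hW
  rcases W.eq_empty_or_nonempty with rfl | ⟨w1, hw1⟩
  · refine ⟨fun _ => ∅, by simp, ?_⟩
    intro w hw
    exact absurd hw (Finset.notMem_empty _)
  have hn : c.natAbs ≠ 0 := Int.natAbs_ne_zero.2 hc
  refine ⟨fun w => c.natAbs.primeFactors.filter
    fun l => ¬ ((l : ℤ) ^ (c.natAbs.factorization l) ∣ b2 a b e w1 w), ?_, ?_⟩
  · refine le_trans ?_ (two_pow_le c.natAbs hn)
    rw [← Finset.card_powerset]
    apply Finset.card_le_card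
    intro s hs
    obtain ⟨w, -, rfl⟩ := Finset.mem_image.1 hs
    exact Finset.mem_powerset.2 (Finset.filter_subset _ _)
  · intro w hw w' hw' hf
    have key : ∀ l : ℕ, l.Prime → (l : ℤ) ^ (c.natAbs.factorization l) ∣ b2 a b e w w' := by
      intro l hl
      by_cases hmem : l ∈ c.natAbs.primeFactors
      · have hlc : (l : ℤ) ^ (c.natAbs.factorization l) ∣ c := by
          have h1 : l ^ (c.natAbs.factorization l) ∣ c.natAbs := Nat.ordProj_dvd _ _
          have h2 : ((l ^ (c.natAbs.factorization l) : ℕ) : ℤ) ∣ c := Int.natCast_dvd.2 h1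
          rwa [Nat.cast_pow] at h2
        have h0 : (¬ ((l : ℤ) ^ (c.natAbs.factorization l) ∣ b2 a b e w1 w)) ↔
            (¬ ((l : ℤ) ^ (c.natAbs.factorization l) ∣ b2 a b e w1 w')) := by
          have h1 := Finset.ext_iff.1 hf l
          rw [Finset.mem_filter, Finset.mem_filter] at h1
          constructor
          · intro h
            exact (h1.1 ⟨hmem, h⟩).2
          · intro h
            exact (h1.2 ⟨hmem, h⟩).2
        exact (hPAR l _ hl a b e w1 w w' (hW w1 hw1).1 (hW w hw).1 (hW w' hw').1
          (hlc.trans (hW w1 hw1).2) (hlc.trans (hW w hw).2) (hlc.trans (hW w' hw').2)).2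
          (not_iff_not.1 h0)
      · have h1 : c.natAbs.factorization l = 0 := by
          rw [← Nat.support_factorization] at hmem
          exact Finsupp.notMem_support_iff.1 hmem
        rw [h1, pow_zero]
        exact one_dvd _
    rw [← Int.natAbs_dvd, ← Int.dvd_natAbs, Int.natCast_dvd_natCast]
    rw [Nat.dvd_iff_prime_pow_dvd_dvd]
    intro p k hp hk
    have h2 : k ≤ c.natAbs.factorization p := (Nat.Prime.pow_dvd_iff_le_factorization hp hn).1 hk
    have h3 := key p hp
    have h4 : ((p ^ (c.natAbs.factorization p) : ℕ) : ℤ) ∣ b2 a b e w w' := by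
      rwa [Nat.cast_pow]
    exact (pow_dvd_pow p h2).trans (Int.natCast_dvd.1 h4)

end Pool.Agent.Helper64.PU
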